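import Pool.Agent.R524.GR.Main

/-!
# Functions of small gradient or small energy on a CAT(0) group give rank one isometries

Let `G` act geometrically on a proper geodesically complete CAT(0) space `X`, let `|g| = d(o, g o)`
and let `S` be a finite symmetric generating set.  Suppose that `G` contains no rank one isometry.

* (Poincaré inequality on annuli.)  The oscillation of any `f : G → ℝ` on the annulus
  `r ≤ |g| ≤ r + D` satisfies `osc ^ q ≤ C ^ q r ^ (q - 1) E_q`, where `E_q` is the `q`-energy of `f`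
  on the annulus `r - B ≤ |g| ≤ r + B`; `B`, `C` do not depend on `f`, `q`, `r`.
* Every function on `G` whose gradient is `o(1 / |g|)` is asymptotically radial.
* A nonconstant function without local extrema (for example a harmonic or `p`-harmonic function, with
  arbitrary positive conductances) has gradient at least `κ / r` somewhere in every annulus
  `r - B ≤ |g| ≤ r + B`, `q`-energy at least `κ ^ q r ^ (1 - q)` on this annulus, and for
  `1 ≤ q ≤ 2` it has infinite `q`-energy, growing at least like `R ^ (2 - q)` and like `log R`.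

So a function on `G` with gradient `o(1 / |g|)` which is not asymptotically radial, a nonconstant
function without local extrema and with gradient `o(1 / |g|)` along some sequence of annuli, or one
of finite `q`-energy for some `1 ≤ q ≤ 2`, yields alternative (iii) of rank rigidity.
-/

set_option autoImplicit false

namespace Pool.Agent.Results.MP_ff40e8_al.GradientRankOne

open Set Metric Filter Topology

/-- The inequality of Bruhat and Tits: a complete metric space is CAT(0) if and only if any two
points `p`, `q` have a midpoint `m` such that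
`d(x, m)² ≤ (d(x, p)² + d(x, q)²) / 2 - d(p, q)² / 4` for all `x`. -/
def BruhatTits (X : Type*) [MetricSpace X] : Prop := ∀ p q : X, ∃ m : X, ∀ x : X,
  dist x m ^ 2 ≤ (dist x p ^ 2 + dist x q ^ 2) / 2 - dist p q ^ 2 / 4

/-- Every geodesic segment extends to a geodesic line: for `p ≠ q` there is a line through `p` and
`q` (in a CAT(0) space it contains the unique geodesic segment from `p` to `q`). -/
def GeodesicallyComplete (X : Type*) [MetricSpace X] : Prop :=
  ∀ p q : X, p ≠ q → ∃ c : ℝ → X, Isometry c ∧ c 0 = p ∧ c (dist p q) = q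

/-- The line `c` bounds a flat half-plane: there is an isometric embedding `H` of the Euclidean
half-plane `ℝ × [0, ∞)` in `X` which extends `c`. -/
def BoundsHalfPlane {X : Type*} [MetricSpace X] (c : ℝ → X) : Prop :=
  ∃ H : ℝ × NNReal → X,
    (∀ p q : ℝ × NNReal, dist (H p) (H q) ^ 2 = (p.1 - q.1) ^ 2 + ((p.2 : ℝ) - q.2) ^ 2) ∧
    ∀ t : ℝ, H (t, 0) = c t

/-- `g` is a rank one isometry of `X`: it translates a geodesic line `c` by `τ > 0`, and this axis
does not bound a flat half-plane. -/
def IsRankOne (X : Type*) [MetricSpace X] {G : Type*} [Group G] [MulAction G X] (g : G) : Prop :=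
  ∃ (τ : ℝ) (c : ℝ → X), 0 < τ ∧ Isometry c ∧ (∀ t, g • c t = c (t + τ)) ∧ ¬ BoundsHalfPlane c

/-- `|g| = d(o, g o)` -/
noncomputable def length {X : Type*} [MetricSpace X] {G : Type*} [Group G] [MulAction G X] (o : X)
    (g : G) : ℝ := dist o (g • o)

/-- The `q`-energy of `f : G → ℝ` on the annulus `x ≤ |g| ≤ y` (a finite set for a geometric action),
for the Cayley graph with edges `{g, g s}`, `s ∈ S`: the sum of `|f(g s) - f(g)| ^ q` over the `g` in
the annulus and `s ∈ S`. -/
noncomputable def Energy {X : Type*} [MetricSpace X] {G : Type*} [Group G] [MulAction G X] (o : X)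
    (S : Finset G) (f : G → ℝ) (q x y : ℝ) : ℝ :=
  ∑ᶠ g ∈ {g : G | x ≤ length o g ∧ length o g ≤ y}, ∑ s ∈ S, |f (g * s) - f g| ^ q

/-- `f` has no local maxima and no local minima on the Cayley graph, except at points `g` such that
`f` is constant on `g` and its neighbours. -/
def NoLocalExtrema {G : Type*} [Group G] (S : Finset G) (f : G → ℝ) : Prop := ∀ g : G,
  ((∀ s ∈ S, f (g * s) ≤ f g) → ∀ s ∈ S, f (g * s) = f g) ∧
  ((∀ s ∈ S, f g ≤ f (g * s)) → ∀ s ∈ S, f (g * s) = f g)

/-- `f` is `p`-harmonic for some `p` and some positive conductances `c g s` on the edges (for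
constant `c` and `p = 2`: harmonic). -/
def PHarmonic {G : Type*} [Group G] (S : Finset G) (f : G → ℝ) : Prop :=
  ∃ (p : ℝ) (c : G → G → ℝ), (∀ g, ∀ s ∈ S, 0 < c g s) ∧
    ∀ g, ∑ s ∈ S, c g s * (|f (g * s) - f g| ^ (p - 2) * (f (g * s) - f g)) = 0

/-- Let `G` act geometrically (by isometries, properly discontinuously, cocompactly) on a proper
geodesically complete CAT(0) space `X`, let `S` be a finite symmetric generating set of `G`.  Then
`G` contains a rank one isometry of `X`, or (1) oscillations on annuli are bounded by energies,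
(2) functions of gradient `o(1 / |g|)` are asymptotically radial and (3) nonconstant functions
without local extrema, in particular harmonic and `p`-harmonic functions, have gradient at least
`κ / r` and energy at least `κ ^ q r ^ (1 - q)` in every annulus, and for `1 ≤ q ≤ 2` their
`q`-energy on balls of radius `R` is at least `κ log R` and at least `κ R ^ (2 - q)`. -/
theorem result {X : Type*} [MetricSpace X] [ProperSpace X] (hX : BruhatTits X)
    (hc : GeodesicallyComplete X)
    {G : Type*} [Group G] [MulAction G X] [IsIsometricSMul G X] [ProperlyDiscontinuousSMul G X]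
    (hcc : ∃ K : Set X, IsCompact K ∧ ∀ x : X, ∃ g : G, g • x ∈ K)
    (S : Finset G) (hS : ∀ s ∈ S, s⁻¹ ∈ S) (hgen : Subgroup.closure (S : Set G) = ⊤) (o : X) :
    (∃ g : G, IsRankOne X g) ∨
      ((∀ D : ℝ, ∃ B C : ℝ, ∀ (f : G → ℝ) (q r : ℝ), 1 ≤ q → 1 ≤ r → ∀ g h : G,
          r ≤ length o g → length o g ≤ r + D → r ≤ length o h → length o h ≤ r + D →
          |f g - f h| ^ q ≤ C ^ q * r ^ (q - 1) * Energy o S f q (r - B) (r + B)) ∧
      (∀ f : G → ℝ,
        (∀ s ∈ S, Tendsto (fun g => length o g * |f (g * s) - f g|) cofinite (𝓝 0)) →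
        ∀ D ε : ℝ, 0 < ε → ∃ R : ℝ, ∀ g h : G, R ≤ length o g →
          |length o g - length o h| ≤ D → |f g - f h| ≤ ε) ∧
      ∀ f : G → ℝ, NoLocalExtrema S f ∨ PHarmonic S f → (∃ g h, f g ≠ f h) →
        (∃ B κ R₀ : ℝ, 0 < κ ∧ ∀ r : ℝ, R₀ ≤ r →
          (∃ g : G, ∃ s ∈ S, r - B ≤ length o g ∧ length o g ≤ r + B ∧
            κ / r ≤ |f (g * s) - f g|) ∧
          ∀ q : ℝ, 1 ≤ q → κ ^ q * r ^ (1 - q) ≤ Energy o S f q (r - B) (r + B)) ∧
        ∀ q : ℝ, 1 ≤ q → q ≤ 2 → ∃ κ R₀ : ℝ, 0 < κ ∧ ∀ R : ℝ, R₀ ≤ R →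
          κ * Real.log R ≤ Energy o S f q 0 R ∧ κ * R ^ (2 - q) ≤ Energy o S f q 0 R) := by
  have hG : Pool.Agent.Y34.HB.Geo X G := ⟨inferInstance, inferInstance, inferInstance, hcc, hX⟩
  by_cases hno : ∀ g : G, ¬ Pool.Agent.Y34.EL.RankOne X g
  · right
    have hl := Pool.Agent.R524.GR.len_geo hG o
    have hsh := Pool.Agent.R524.GR.short_geo hG hc hno o S hS hgen
    refine ⟨fun D => ?_, fun f hf D ε hε => Pool.Agent.R524.GR.radial hsh f hf D ε hε,
      fun f hf hne => ?_⟩
    · obtain ⟨B, C, hB, hC, h⟩ := hsh (max D 0) (le_max_right _ _)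
      refine ⟨B, C, fun f q r hq hr g k hg1 hg2 hk1 hk2 => ?_⟩
      exact Pool.Agent.R524.GR.osc_energy hl hC h f q r hq hr g k
        ⟨hg1, hg2.trans (by linarith [le_max_left D 0])⟩
        ⟨hk1, hk2.trans (by linarith [le_max_left D 0])⟩
    · have hext : Pool.Agent.R524.GR.NoExt S f := by
        rcases hf with hf | ⟨p, c, hc, hf⟩
        · exact hf
        · exact Pool.Agent.R524.GR.noExt_harm S f p c hc hf
      obtain ⟨B, κ, R₀, hB, hκ, hR₀, h⟩ := Pool.Agent.R524.GR.big hl hS hgen hsh f hext hne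
      refine ⟨⟨B, κ, R₀, hκ, h⟩, fun q hq hq2 => ?_⟩
      obtain ⟨κ₁, R₁, hκ₁, h₁⟩ := Pool.Agent.R524.GR.ball_log hl S f B κ R₀ hB hκ hR₀
        (fun r hr => (h r hr).2) q hq hq2
      obtain ⟨κ₂, R₂, hκ₂, h₂⟩ := Pool.Agent.R524.GR.ball_pow hl S f B κ R₀ hB hκ hR₀
        (fun r hr => (h r hr).2) q hq
      refine ⟨min κ₁ κ₂, max (max R₁ R₂) 1, lt_min hκ₁ hκ₂, fun R hR => ⟨?_, ?_⟩⟩
      · refine (mul_le_mul_of_nonneg_right (min_le_left _ _) (Real.log_nonneg ?_)).trans
          (h₁ R (((le_max_left _ _).trans (le_max_left _ _)).trans hR))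
        exact (le_max_right _ _).trans hR
      · refine (mul_le_mul_of_nonneg_right (min_le_right _ _) (Real.rpow_nonneg ?_ _)).trans
          (h₂ R (((le_max_right _ _).trans (le_max_left _ _)).trans hR))
        exact zero_le_one.trans ((le_max_right _ _).trans hR)
  · left
    push Not at hno
    obtain ⟨g, τ, c, hτ, hc, he⟩ := hno
    refine ⟨g, τ, c, hτ, hc.1, hc.2, ?_⟩
    rintro ⟨H, hH⟩
    have : H ∈ Pool.Agent.Y34.HB.HP c := hH
    rw [he] at this
    exact this

end Pool.Agent.Results.MP_ff40e8_al.GradientRankOne
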